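import Pool.Agent.Helper63.Sey2.Goals

/-!
PROJECT SEY2 (MP_b6b2d3_co), packet LIST: list colouring with few conflicts per colour.
-/

set_option autoImplicit false

namespace Pool.Agent.Helper69.Sey2

open Pool.Agent.Helper41.Girth4 Pool.Agent.Helper63.Sey2

/-- the probability that two different coordinates have given values -/
theorem pr_two {V : Type} [Fintype V] {l : ℕ} (hl : 1 ≤ l) {u w : V} (huw : u ≠ w)
    (i k : Fin l) :
    Pr (fun ω : V → Fin l => ω u = i ∧ ω w = k) ≤ 1 / (l : ℝ) ^ 2 := by
  classical
  haveI : Nonempty (Fin l) := ⟨i⟩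
  have hv : ∀ x : Fin l, Pr (fun y : Fin l => y = x) = 1 / (l : ℝ) := by
    intro x
    rw [Pr_eq_card, Finset.filter_eq', if_pos (Finset.mem_univ x), Finset.card_singleton,
      Fintype.card_fin]
    norm_num
  have h1 : Pr (fun ω : V → Fin l => ω u = i ∧ ω w = k) =
      Pr (fun ω : V → Fin l => ∀ t, (if t = u then (fun y : Fin l => y = i)
        else if t = w then (fun y : Fin l => y = k) else fun _ => True) (ω t)) := by
    apply Pr_congr
    intro ω
    constructor
    · rintro ⟨h1, h2⟩ t
      by_cases htu : t = u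
      · subst htu
        simpa using h1
      · by_cases htw : t = w
        · subst htw
          simpa [htu] using h2
        · simp [htu, htw]
    · intro h
      have h2 := h u
      have h3 := h w
      refine ⟨by simpa using h2, ?_⟩
      simpa [huw.symm] using h3
  rw [h1, Pr_pi]
  have h2 : ∀ t : V, Pr ((if t = u then (fun y : Fin l => y = i)
        else if t = w then (fun y : Fin l => y = k) else fun _ => True)) =
      (if t = u then 1 / (l : ℝ) else 1) * (if t = w then 1 / (l : ℝ) else 1) := by
    intro t
    by_cases htu : t = u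
    · subst htu
      rw [if_pos rfl, if_pos rfl, if_neg huw, mul_one]
      exact hv i
    · rw [if_neg htu, if_neg htu]
      by_cases htw : t = w
      · rw [if_pos htw, if_pos htw, one_mul]
        exact hv k
      · rw [if_neg htw, if_neg htw, one_mul]
        exact Pr_true
  rw [Finset.prod_congr rfl fun t _ => h2 t, Finset.prod_mul_distrib, Finset.prod_ite_eq',
    Finset.prod_ite_eq', if_pos (Finset.mem_univ _), if_pos (Finset.mem_univ _)]
  rw [div_mul_div_comm, one_mul, sq]

/-- the number of the conflicts at a vertex -/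
theorem conf {V Col : Type} [Fintype V] (H : SimpleGraph V) (U : V → Prop) (L : V → Col → Prop)
    {l : ℕ} (en : V → Fin l → Col) (hinj : ∀ u, U u → Function.Injective (en u))
    (hL : ∀ u, U u → ∀ i, L u (en u i))
    (hc : ∀ u c, U u → L u c → 16 * Nat.card {w // H.Adj u w ∧ U w ∧ L w c} ≤ l)
    (a : V) (F : Finset (V × Fin l × Fin l)) (ha : U a)
    (hF : ∀ x ∈ F, H.Adj a x.1 ∧ U x.1 ∧ en a x.2.1 = en x.1 x.2.2) :
    F.card ≤ l * (l / 16) := by
  classical
  have h1 : F.card ≤ ((Finset.univ : Finset (Fin l)).sigma fun i =>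
      Finset.univ.filter fun w : V => H.Adj a w ∧ U w ∧ L w (en a i)).card := by
    refine Finset.card_le_card_of_injOn (fun x => ⟨x.2.1, x.1⟩) ?_ ?_
    · intro x hx
      obtain ⟨g1, g2, g3⟩ := hF x hx
      simp only [Finset.coe_sigma, Set.mem_sigma_iff, Finset.mem_coe, Finset.mem_univ,
        Finset.mem_filter, true_and]
      exact ⟨g1, g2, by rw [g3]; exact hL _ g2 _⟩
    · rintro ⟨w, i, k⟩ hx ⟨w', i', k'⟩ hx' h
      obtain ⟨g1, g2, g3⟩ := hF _ hx
      obtain ⟨g1', g2', g3'⟩ := hF _ hx'
      simp only [Sigma.mk.injEq, heq_eq_eq] at h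
      obtain ⟨rfl, rfl⟩ := h
      have h3 : k = k' := hinj w g2 (by
        have e1 : en a i = en w k := g3
        have e2 : en a i = en w k' := g3'
        rw [← e1, ← e2])
      rw [h3]
  refine h1.trans ?_
  rw [Finset.card_sigma]
  have h2 : ∀ i : Fin l, (Finset.univ.filter fun w : V => H.Adj a w ∧ U w ∧ L w (en a i)).card ≤
      l / 16 := by
    intro i
    have h3 := hc a (en a i) ha (hL a ha i)
    rw [Nat.card_eq_fintype_card, Fintype.card_subtype] at h3
    rw [Nat.le_div_iff_mul_le (by norm_num)]
    linarith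
  calc ∑ i : Fin l, (Finset.univ.filter fun w : V => H.Adj a w ∧ U w ∧ L w (en a i)).card
      ≤ ∑ _i : Fin l, l / 16 := Finset.sum_le_sum fun i _ => h2 i
    _ = l * (l / 16) := by simp

theorem goalLIST : GoalLIST := by
  classical
  intro V Col _ _ H U L l hl hen hconf
  haveI : Nonempty (Fin l) := ⟨⟨0, by omega⟩⟩
  choose! en hinj hL using hen
  let J : Type := {x : V × V × Fin l × Fin l //
    U x.1 ∧ U x.2.1 ∧ H.Adj x.1 x.2.1 ∧ en x.1 x.2.2.1 = en x.2.1 x.2.2.2}
  let S : J → Set V := fun j => {j.1.1, j.1.2.1}
  let A : J → (V → Fin l) → Prop := fun j ω => ω j.1.1 = j.1.2.2.1 ∧ ω j.1.2.1 = j.1.2.2.2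
  have hdep : ∀ j ω ω', (∀ i ∈ S j, ω i = ω' i) → A j ω → A j ω' := by
    rintro j ω ω' h ⟨h1, h2⟩
    refine ⟨?_, ?_⟩
    · rw [← h j.1.1 (by simp [S])]
      exact h1
    · rw [← h j.1.2.1 (by simp [S])]
      exact h2
  have hpr : ∀ j, Pr (A j) ≤ 1 / (l : ℝ) ^ 2 := by
    intro j
    exact pr_two (by omega) j.2.2.2.1.ne _ _
  have hd1 : 1 ≤ l * l / 4 := by
    rw [Nat.le_div_iff_mul_le (by norm_num)]
    nlinarith
  have h4 : 4 * (1 / (l : ℝ) ^ 2) * ((l * l / 4 : ℕ) : ℝ) ≤ 1 := by
    have hl0 : (0 : ℝ) < l := by
      have : 0 < l := by omega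
      exact_mod_cast this
    have h5 : ((l * l / 4 : ℕ) : ℝ) ≤ (l : ℝ) ^ 2 / 4 := by
      have := @Nat.cast_div_le ℝ _ _ _ (l * l) 4
      push_cast at this
      rw [sq]
      exact this
    calc 4 * (1 / (l : ℝ) ^ 2) * ((l * l / 4 : ℕ) : ℝ)
        ≤ 4 * (1 / (l : ℝ) ^ 2) * ((l : ℝ) ^ 2 / 4) := by
          apply mul_le_mul_of_nonneg_left h5
          positivity
      _ = 1 := by
          field_simp
  have hcard : ∀ j, Nat.card {j' // ¬ Disjoint (S j) (S j')} ≤ l * l / 4 := by
    intro j
    obtain ⟨⟨u, w, i, k⟩, hu, hw, huw, heq⟩ := j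
    dsimp only at hu hw huw heq
    let X : V → Finset (V × Fin l × Fin l) := fun a =>
      Finset.univ.filter fun x => H.Adj a x.1 ∧ U x.1 ∧ en a x.2.1 = en x.1 x.2.2
    have hX : ∀ a, U a → (X a).card ≤ l * (l / 16) := fun a ha =>
      conf H U L en hinj hL hconf a (X a) ha fun x hx => (Finset.mem_filter.1 hx).2
    let Z : Finset ((Bool × Bool) × (V × Fin l × Fin l)) :=
      (Finset.univ : Finset (Bool × Bool)).biUnion fun b =>
        (X (if b.1 then u else w)).image fun x => (b, x)
    have hZ : Z.card ≤ 4 * (l * (l / 16)) := by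
      calc Z.card ≤ ∑ b : Bool × Bool, ((X (if b.1 then u else w)).image fun x => (b, x)).card :=
            Finset.card_biUnion_le
        _ ≤ ∑ _b : Bool × Bool, l * (l / 16) := by
            apply Finset.sum_le_sum
            intro b _
            refine Finset.card_image_le.trans (hX _ ?_)
            split_ifs
            · exact hu
            · exact hw
        _ = 4 * (l * (l / 16)) := by simp
    have hle : 4 * (l * (l / 16)) ≤ l * l / 4 := by
      rw [Nat.le_div_iff_mul_le (by norm_num)]
      have h16 : l / 16 * 16 ≤ l := Nat.div_mul_le_self l 16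
      calc 4 * (l * (l / 16)) * 4 = l * (l / 16 * 16) := by ring
        _ ≤ l * l := Nat.mul_le_mul_left l h16
    refine le_trans ?_ (hZ.trans hle)
    -- the map
    let f : {j' : J // ¬ Disjoint (S ⟨(u, w, i, k), hu, hw, huw, heq⟩) (S j')} →
        ((Bool × Bool) × (V × Fin l × Fin l)) := fun j' =>
      if j'.1.1.1 = u ∨ j'.1.1.1 = w then
        ((decide (j'.1.1.1 = u), true), (j'.1.1.2.1, j'.1.1.2.2.1, j'.1.1.2.2.2))
      else ((decide (j'.1.1.2.1 = u), false), (j'.1.1.1, j'.1.1.2.2.2, j'.1.1.2.2.1))
    have hmem : ∀ j', f j' ∈ Z := by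
      rintro ⟨⟨⟨u', w', i', k'⟩, hu', hw', huw', heq'⟩, hnd⟩
      dsimp only at hu' hw' huw' heq'
      simp only [Z, Finset.mem_biUnion, Finset.mem_univ, true_and, Finset.mem_image]
      by_cases hc : u' = u ∨ u' = w
      · refine ⟨(decide (u' = u), true), (w', i', k'), ?_, ?_⟩
        · simp only [X, Finset.mem_filter, Finset.mem_univ, true_and]
          have : (if (decide (u' = u)) = true then u else w) = u' := by
            by_cases h : u' = u
            · simp [h]
            · rw [if_neg (by simpa using h)]
              rcases hc with h' | h'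
              · exact absurd h' h
              · exact h'.symm
          rw [this]
          exact ⟨huw', hw', heq'⟩
        · simp only [f]
          rw [if_pos hc]
      · have hc' : w' = u ∨ w' = w := by
          push Not at hc
          rw [Set.not_disjoint_iff] at hnd
          obtain ⟨x, hx1, hx2⟩ := hnd
          simp only [S, Set.mem_insert_iff, Set.mem_singleton_iff] at hx1 hx2
          rcases hx2 with rfl | rfl
          · rcases hx1 with h | h
            · exact absurd h hc.1
            · exact absurd h hc.2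
          · exact hx1
        refine ⟨(decide (w' = u), false), (u', k', i'), ?_, ?_⟩
        · simp only [X, Finset.mem_filter, Finset.mem_univ, true_and]
          have : (if (decide (w' = u)) = true then u else w) = w' := by
            by_cases h : w' = u
            · simp [h]
            · rw [if_neg (by simpa using h)]
              rcases hc' with h' | h'
              · exact absurd h' h
              · exact h'.symm
          rw [this]
          exact ⟨huw'.symm, hu', heq'.symm⟩
        · simp only [f]
          rw [if_neg hc]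
    have hinjf : Function.Injective f := by
      rintro ⟨⟨⟨u1, w1, i1, k1⟩, a1, a2, a3, a4⟩, hnd1⟩ ⟨⟨⟨u2, w2, i2, k2⟩, b1, b2, b3, b4⟩, hnd2⟩ h
      simp only [f] at h
      have key : u1 = u2 ∧ w1 = w2 ∧ i1 = i2 ∧ k1 = k2 := by
        by_cases hc1 : u1 = u ∨ u1 = w
        · rw [if_pos hc1] at h
          by_cases hc2 : u2 = u ∨ u2 = w
          · rw [if_pos hc2] at h
            simp only [Prod.mk.injEq, decide_eq_decide, and_true] at h
            obtain ⟨h1, h2, h3, h4⟩ := h
            refine ⟨?_, h2, h3, h4⟩
            by_cases h5 : u1 = u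
            · rw [h5, h1.1 h5]
            · have h6 : u2 ≠ u := fun h7 => h5 (h1.2 h7)
              rw [hc1.resolve_left h5, hc2.resolve_left h6]
          · rw [if_neg hc2] at h
            simp at h
        · rw [if_neg hc1] at h
          by_cases hc2 : u2 = u ∨ u2 = w
          · rw [if_pos hc2] at h
            simp at h
          · rw [if_neg hc2] at h
            simp only [Prod.mk.injEq, decide_eq_decide, and_true] at h
            obtain ⟨h1, h2, h3, h4⟩ := h
            have d1 : w1 = u ∨ w1 = w := by
              push Not at hc1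
              rw [Set.not_disjoint_iff] at hnd1
              obtain ⟨x, hx1, hx2⟩ := hnd1
              simp only [S, Set.mem_insert_iff, Set.mem_singleton_iff] at hx1 hx2
              rcases hx2 with rfl | rfl
              · rcases hx1 with h | h
                · exact absurd h hc1.1
                · exact absurd h hc1.2
              · exact hx1
            have d2 : w2 = u ∨ w2 = w := by
              push Not at hc2
              rw [Set.not_disjoint_iff] at hnd2
              obtain ⟨x, hx1, hx2⟩ := hnd2
              simp only [S, Set.mem_insert_iff, Set.mem_singleton_iff] at hx1 hx2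
              rcases hx2 with rfl | rfl
              · rcases hx1 with h | h
                · exact absurd h hc2.1
                · exact absurd h hc2.2
              · exact hx1
            refine ⟨h2, ?_, h4, h3⟩
            by_cases h5 : w1 = u
            · rw [h5, h1.1 h5]
            · have h6 : w2 ≠ u := fun h7 => h5 (h1.2 h7)
              rw [d1.resolve_left h5, d2.resolve_left h6]
      obtain ⟨rfl, rfl, rfl, rfl⟩ := key
      rfl
    have h6 : Nat.card {j' : J // ¬ Disjoint (S ⟨(u, w, i, k), hu, hw, huw, heq⟩) (S j')} ≤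
        Nat.card {z // z ∈ Z} :=
      Nat.card_le_card_of_injective (fun j' => (⟨f j', hmem j'⟩ : {z // z ∈ Z}))
        (fun a b hab => hinjf (congrArg Subtype.val hab))
    rw [Nat.card_eq_fintype_card (α := {z // z ∈ Z}), Fintype.card_coe] at h6
    exact h6
  obtain ⟨ω, hω⟩ := Pool.Agent.Helper51.Girth4.stmtLLL (I := V) (J := J) (L := Fin l) S A hdep
    (1 / (l : ℝ) ^ 2) (l * l / 4) hpr hd1 hcard h4
  refine ⟨fun u => en u (ω u), fun u hu => hL u hu _, fun u w hu hw huw h => ?_⟩
  exact hω ⟨(u, w, ω u, ω w), hu, hw, huw, h⟩ ⟨rfl, rfl⟩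

end Pool.Agent.Helper69.Sey2
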